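import Mathlib

set_option autoImplicit false

namespace Pool.Agent.H209Z.Proj

/-- the semidirect product of `ZMod 11` by `ℤ`, the generator acting as multiplication by `u` -/
@[ext] structure Grp (u : (ZMod 11)ˣ) where
  a : ZMod 11
  k : ℤ

namespace Grp

variable {u : (ZMod 11)ˣ}

instance : Mul (Grp u) := ⟨fun x y => ⟨x.a + ((u ^ x.k : (ZMod 11)ˣ) : ZMod 11) * y.a, x.k + y.k⟩⟩
instance : One (Grp u) := ⟨⟨0, 0⟩⟩
instance : Inv (Grp u) := ⟨fun x => ⟨-(((u ^ (-x.k) : (ZMod 11)ˣ) : ZMod 11) * x.a), -x.k⟩⟩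

@[simp] theorem mul_a (x y : Grp u) :
    (x * y).a = x.a + ((u ^ x.k : (ZMod 11)ˣ) : ZMod 11) * y.a := rfl
@[simp] theorem mul_k (x y : Grp u) : (x * y).k = x.k + y.k := rfl
@[simp] theorem one_a : (1 : Grp u).a = 0 := rfl
@[simp] theorem one_k : (1 : Grp u).k = 0 := rfl
theorem inv_a (x : Grp u) : (x⁻¹).a = -(((u ^ (-x.k) : (ZMod 11)ˣ) : ZMod 11) * x.a) := rfl
theorem inv_k (x : Grp u) : (x⁻¹).k = -x.k := rfl

instance : Group (Grp u) := Group.ofLeftAxioms
  (fun x y z => by
    ext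
    · simp only [mul_a, mul_k, zpow_add, Units.val_mul]
      ring
    · simp only [mul_k]
      ring)
  (fun x => by ext <;> simp)
  (fun x => by
    ext
    · simp only [mul_a, inv_a, inv_k, one_a]
      ring
    · simp [inv_k])

theorem pow_k (x : Grp u) (n : ℕ) : (x ^ n).k = n * x.k := by
  induction n with
  | zero => simp
  | succ n ih => rw [pow_succ, mul_k, ih]; push_cast; ring

theorem pow_a (x : Grp u) (n : ℕ) :
    (x ^ n).a = (∑ i ∈ Finset.range n, ((u ^ x.k : (ZMod 11)ˣ) : ZMod 11) ^ i) * x.a := by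
  induction n with
  | zero => simp
  | succ n ih =>
    rw [pow_succ, mul_a, ih, pow_k, Finset.sum_range_succ, mul_comm (n : ℤ), zpow_mul,
      zpow_natCast, Units.val_pow_eq_pow_val]
    ring

theorem sum_eq_zero : ∀ w : ZMod 11, w ^ 5 = 1 → ∑ i ∈ Finset.range 55, w ^ i = 0 := by
  decide

theorem zpow_five (hu : u ^ 5 = 1) (k : ℤ) : u ^ (5 * k) = 1 := by
  rw [zpow_mul]
  have : u ^ (5 : ℤ) = 1 := by exact_mod_cast hu
  rw [this, one_zpow]

theorem pow_55 (hu : u ^ 5 = 1) (x : Grp u) : x ^ 55 = ⟨0, 55 * x.k⟩ := by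
  ext
  · rw [pow_a, sum_eq_zero, zero_mul]
    rw [← Units.val_pow_eq_pow_val, ← zpow_natCast, ← zpow_mul, mul_comm]
    have := zpow_five hu x.k
    push_cast
    rw [this, Units.val_one]
  · rw [pow_k]
    rfl

theorem pow_55_mul (hu : u ^ 5 = 1) (x : Grp u) (m : ℕ) : x ^ (55 * m) = ⟨0, 55 * m * x.k⟩ := by
  rw [mul_comm, pow_mul, pow_55 hu, pow_k]
  congr 1
  ring

theorem pow_56 (hu : u ^ 5 = 1) (x : Grp u) : x ^ 56 = ⟨x.a, 56 * x.k⟩ := by
  rw [pow_succ', pow_55 hu]
  ext
  · simp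
  · simp only [mul_k]
    ring

/-- stretch the integer coordinate -/
def stretch {u v : (ZMod 11)ˣ} (m : ℤ) (h : v ^ m = u) : Grp u →* Grp v :=
  MonoidHom.mk' (fun x => ⟨x.a, m * x.k⟩) fun x y => by
    ext
    · simp only [mul_a, zpow_mul, h]
    · simp only [mul_k]
      ring

/-- the map to the centre -/
def cen (u v : (ZMod 11)ˣ) : Grp u →* Grp v :=
  MonoidHom.mk' (fun x => ⟨0, 55 * x.k⟩) fun x y => by
    ext
    · simp
    · simp only [mul_k]
      ring

end Grp

theorem comap_comap_eq {X Y : Type} [Group X] [Group Y] (h i : Y →* X) (h' i' : X →* Y)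
    (e1 : ∀ x, h (h' x) = x ^ 56) (e2 : ∀ x, ∃ n : ℕ, i (h' x) = x ^ n)
    (e3 : ∀ x, ∃ n : ℕ, h (i' x) = x ^ n) (e4 : ∀ x, i (i' x) = x ^ 3025) (S : Subgroup X) :
    (S.comap h ⊓ S.comap i).comap h' ⊓ (S.comap h ⊓ S.comap i).comap i' = S := by
  ext x
  simp only [Subgroup.mem_inf, Subgroup.mem_comap, e1, e4]
  constructor
  · rintro ⟨⟨h1, -⟩, -, h2⟩
    have h3 : x = x ^ 3025 * ((x ^ 56) ^ 54)⁻¹ := by
      rw [← pow_mul, eq_mul_inv_iff_mul_eq, ← pow_succ']
    rw [h3]
    exact S.mul_mem h2 (S.inv_mem (S.pow_mem h1 _))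
  · intro hx
    obtain ⟨n, hn⟩ := e2 x
    obtain ⟨m, hm⟩ := e3 x
    rw [hn, hm]
    exact ⟨⟨S.pow_mem hx _, S.pow_mem hx _⟩, S.pow_mem hx _, S.pow_mem hx _⟩

/-- the unit 3 -/
def u3 : (ZMod 11)ˣ := ⟨3, 4, by decide, by decide⟩
/-- the unit 9 -/
def u9 : (ZMod 11)ˣ := ⟨9, 5, by decide, by decide⟩

theorem u3_five : u3 ^ 5 = 1 := by decide
theorem u9_five : u9 ^ 5 = 1 := by decide
theorem u3_two : u3 ^ (2 : ℤ) = u9 := by decide
theorem u9_28 : u9 ^ (28 : ℤ) = u3 := by decide

open Grp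

/-- from `K` to `G` -/
def hK : Grp u9 →* Grp u3 := stretch 2 u3_two
/-- from `G` to `K` -/
def hG : Grp u3 →* Grp u9 := stretch 28 u9_28

variable (I : Type)

/-- the projectivity, as a bijection -/
def phiE : Subgroup (I → Grp u3) ≃ Subgroup (I → Grp u9) where
  toFun S := S.comap (hK.compLeft I) ⊓ S.comap ((cen u9 u3).compLeft I)
  invFun T := T.comap (hG.compLeft I) ⊓ T.comap ((cen u3 u9).compLeft I)
  left_inv S := by
    refine comap_comap_eq _ _ _ _ (fun x => ?_) (fun x => ⟨55 * 28, ?_⟩) (fun x => ⟨55 * 2, ?_⟩)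
      (fun x => ?_) S
    · funext j
      rw [Pi.pow_apply, pow_56 u3_five]
      change (⟨(x j).a, 2 * (28 * (x j).k)⟩ : Grp u3) = _
      congr 1
      ring
    · funext j
      rw [Pi.pow_apply, pow_55_mul u3_five]
      change (⟨0, 55 * (28 * (x j).k)⟩ : Grp u3) = _
      congr 1
      push_cast
      ring
    · funext j
      rw [Pi.pow_apply, pow_55_mul u3_five]
      change (⟨0, 2 * (55 * (x j).k)⟩ : Grp u3) = _
      congr 1
      push_cast
      ring
    · funext j
      rw [Pi.pow_apply, show 3025 = 55 * 55 from rfl, pow_55_mul u3_five]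
      change (⟨0, 55 * (55 * (x j).k)⟩ : Grp u3) = _
      congr 1
      push_cast
      ring
  right_inv T := by
    refine comap_comap_eq _ _ _ _ (fun x => ?_) (fun x => ⟨55 * 2, ?_⟩) (fun x => ⟨55 * 28, ?_⟩)
      (fun x => ?_) T
    · funext j
      rw [Pi.pow_apply, pow_56 u9_five]
      change (⟨(x j).a, 28 * (2 * (x j).k)⟩ : Grp u9) = _
      congr 1
      ring
    · funext j
      rw [Pi.pow_apply, pow_55_mul u9_five]
      change (⟨0, 55 * (2 * (x j).k)⟩ : Grp u9) = _
      congr 1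
      push_cast
      ring
    · funext j
      rw [Pi.pow_apply, pow_55_mul u9_five]
      change (⟨0, 28 * (55 * (x j).k)⟩ : Grp u9) = _
      congr 1
      push_cast
      ring
    · funext j
      rw [Pi.pow_apply, show 3025 = 55 * 55 from rfl, pow_55_mul u9_five]
      change (⟨0, 55 * (55 * (x j).k)⟩ : Grp u9) = _
      congr 1
      push_cast
      ring

/-- the projectivity -/
def phi : Subgroup (I → Grp u3) ≃o Subgroup (I → Grp u9) :=
  (phiE I).toOrderIso
    (fun _ _ h => inf_le_inf (Subgroup.comap_mono h) (Subgroup.comap_mono h))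
    (fun _ _ h => inf_le_inf (Subgroup.comap_mono h) (Subgroup.comap_mono h))

theorem mem_range_mulSingle {I G : Type} [DecidableEq I] [Group G] (i : I) (x : I → G) :
    x ∈ (MonoidHom.mulSingle (fun _ : I => G) i).range ↔ ∀ j, j ≠ i → x j = 1 := by
  constructor
  · rintro ⟨g, rfl⟩ j hj
    simp [hj]
  · intro h
    refine ⟨x i, ?_⟩
    funext j
    by_cases hj : j = i
    · subst hj
      simp
    · simp [hj, h j hj]

theorem phi_range [DecidableEq I] (i : I) :
    phi I (MonoidHom.mulSingle (fun _ : I => Grp u3) i).range =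
      (MonoidHom.mulSingle (fun _ : I => Grp u9) i).range := by
  ext y
  change y ∈ Subgroup.comap (hK.compLeft I) _ ⊓ Subgroup.comap ((cen u9 u3).compLeft I) _ ↔ _
  simp only [Subgroup.mem_inf, Subgroup.mem_comap, mem_range_mulSingle]
  constructor
  · rintro ⟨h, -⟩ j hj
    have h1 : (⟨(y j).a, 2 * (y j).k⟩ : Grp u3) = 1 := h j hj
    have h2 := congrArg Grp.a h1
    have h3 := congrArg Grp.k h1
    simp only [one_a, one_k] at h2 h3
    ext
    · exact h2
    · rw [one_k]
      omega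
  · intro h
    refine ⟨fun j hj => ?_, fun j hj => ?_⟩
    · change hK (y j) = 1
      rw [h j hj, map_one]
    · change cen u9 u3 (y j) = 1
      rw [h j hj, map_one]

theorem normal_range {I G : Type} [DecidableEq I] [Group G] (i : I) :
    (MonoidHom.mulSingle (fun _ : I => G) i).range.Normal := by
  refine ⟨fun x hx g => ?_⟩
  rw [mem_range_mulSingle] at hx ⊢
  intro j hj
  simp [hx j hj]

theorem iSup_range {G : Type} [Group G] :
    (⨆ i : Fin 2, (MonoidHom.mulSingle (fun _ : Fin 2 => G) i).range) = ⊤ := by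
  rw [eq_top_iff]
  intro x _
  have h : x = MonoidHom.mulSingle (fun _ : Fin 2 => G) 0 (x 0) *
      MonoidHom.mulSingle (fun _ : Fin 2 => G) 1 (x 1) := by
    funext j
    fin_cases j <;> simp
  rw [h]
  exact Subgroup.mul_mem _ (Subgroup.mem_iSup_of_mem 0 ⟨_, rfl⟩)
    (Subgroup.mem_iSup_of_mem 1 ⟨_, rfl⟩)

theorem indep_range {I G : Type} [DecidableEq I] [Group G] :
    iSupIndep fun i : I => (MonoidHom.mulSingle (fun _ : I => G) i).range := by
  intro i
  have h : (⨆ j, ⨆ (_ : j ≠ i), (MonoidHom.mulSingle (fun _ : I => G) j).range) ≤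
      (Pi.evalMonoidHom (fun _ : I => G) i).ker := by
    refine iSup₂_le fun j hj x hx => ?_
    exact (mem_range_mulSingle j x).1 hx i hj.symm
  refine Disjoint.mono_right h ?_
  rw [Subgroup.disjoint_def]
  intro x hx hx'
  funext j
  by_cases hj : j = i
  · subst hj
    exact hx'
  · exact (mem_range_mulSingle i x).1 hx j hj

theorem nine_smul : (9 • (1 : ZMod 11)) = 9 := by decide

theorem cancel11 : ∀ x y z : ZMod 11, z ≠ 0 → x * z = y * z → x = y := by decide

theorem not_iso (e : Grp u9 ≃* Grp u3) : False := by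
  set a : Grp u9 := ⟨1, 0⟩ with ha
  set b : Grp u9 := ⟨0, 1⟩ with hb
  have h1 : a ^ 11 = 1 := by
    ext
    · rw [pow_a]
      decide
    · rw [pow_k]
      rfl
  have h2 : b * a = a ^ 9 * b := by
    ext
    · rw [mul_a, mul_a, pow_a]
      decide
    · rw [mul_k, mul_k, pow_k]
      rfl
  have h3 : (e a).k = 0 := by
    have := congrArg Grp.k (congrArg e h1)
    rw [map_pow, pow_k, map_one, one_k] at this
    omega
  have h4 : (e a).a ≠ 0 := by
    intro h
    have h5 : e a = 1 := Grp.ext h h3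
    rw [MulEquiv.map_eq_one_iff] at h5
    have := congrArg Grp.a h5
    revert this
    decide
  have h5 : ((u3 ^ (e b).k : (ZMod 11)ˣ) : ZMod 11) = 9 := by
    have := congrArg Grp.a (congrArg e h2)
    rw [map_mul, map_mul, map_pow, mul_a, mul_a, pow_a, pow_k, h3] at this
    simp only [zpow_zero, Units.val_one, one_pow, Finset.sum_const, Finset.card_range,
      mul_zero, one_mul] at this
    have h9 : (9 • (1 : ZMod 11)) = 9 := nine_smul
    rw [h9] at this
    exact cancel11 _ _ _ h4 (by linear_combination this)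
  have h6 : ∀ x : Grp u9, ∃ l : ℤ, (e x).k = l * (e b).k := by
    have key : ∀ x : Grp u9, (e x).k = x.k * (e b).k := by
      have k1 : ∀ r : ZMod 11, (e ⟨r, 0⟩).k = 0 := by
        intro r
        have h7 : (⟨r, 0⟩ : Grp u9) ^ 55 = 1 := by
          rw [pow_55 u9_five]
          rfl
        have := congrArg Grp.k (congrArg e h7)
        rw [map_pow, pow_k, map_one, one_k] at this
        omega
      have k2 : ∀ l : ℤ, (e ⟨0, l⟩).k = l * (e b).k := by
        intro l
        induction l using Int.induction_on with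
        | zero =>
          have : (⟨0, 0⟩ : Grp u9) = 1 := rfl
          rw [this, map_one, one_k, zero_mul]
        | succ l ih =>
          have : (⟨0, l + 1⟩ : Grp u9) = ⟨0, l⟩ * b := by ext <;> simp [hb]
          rw [this, map_mul, mul_k, ih]
          ring
        | pred l ih =>
          have : (⟨0, -l⟩ : Grp u9) = ⟨0, -l - 1⟩ * b := by ext <;> simp [hb]
          rw [this, map_mul, mul_k] at ih
          linear_combination ih
      intro x
      have : x = ⟨x.a, 0⟩ * ⟨0, x.k⟩ := by ext <;> simp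
      rw [this, map_mul, mul_k, k1, k2]
      simp
    exact fun x => ⟨x.k, key x⟩
  obtain ⟨l, hl⟩ := h6 (e.symm ⟨0, 1⟩)
  rw [e.apply_symm_apply] at hl
  have h7 : (e b).k = 1 ∨ (e b).k = -1 := Int.eq_one_or_neg_one_of_mul_eq_one' hl.symm |>.elim
    (fun h => Or.inl h.2) (fun h => Or.inr h.2)
  rcases h7 with h | h
  · rw [h] at h5
    revert h5
    decide
  · rw [h] at h5
    revert h5
    decide

theorem not_iso_range {I : Type} [DecidableEq I] (i : I) (S : Subgroup (I → Grp u9))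
    (hS : S = (MonoidHom.mulSingle (fun _ : I => Grp u9) i).range) (e : S ≃* Grp u3) : False := by
  subst hS
  exact not_iso ((MonoidHom.ofInjective (f := MonoidHom.mulSingle (fun _ : I => Grp u9) i)
    (Pi.mulSingle_injective (M := fun _ : I => Grp u9) i)).trans e)

theorem iSup_range' {G : Type} [Group G] :
    (⨆ i : Fin (0 + 2), (MonoidHom.mulSingle (fun _ : Fin (0 + 2) => G) i).range) = ⊤ :=
  iSup_range

end Pool.Agent.H209Z.Proj
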